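import Pool.Agent.Helper15.WA.LocDefs
import Pool.Agent.Helper10.GWA.LB
import Pool.Agent.Helper37.GWA.RSD

/-!
# GWA, module SIGB: the fixed points of the involution near `(T₀, i T)`
-/

namespace GWA

section algebra

variable {F : Type*} [Field F] {ξ : F}

private theorem alg_unit (z3 : 1 + 3 * ξ ≠ 0) (z4 : 1 - ξ ≠ 0) :
    (1 + 2 * ξ) / ((1 - ξ) * (1 + 3 * ξ) ^ 3) - 1 =
        ((-6 - 18 * ξ + 27 * ξ ^ 3) * ξ) / ((1 - ξ) * (1 + 3 * ξ) ^ 3) := by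
  have h0 : (1 - ξ) * (1 + 3 * ξ) ^ 3 ≠ 0 := mul_ne_zero z4 (pow_ne_zero _ z3)
  rw [div_sub_one h0]
  congr 1
  ring

private theorem alg_S (z3 : 1 + 3 * ξ ≠ 0) :
    sS ξ (-(1 + ξ) / (1 + 3 * ξ)) = 3 * ξ * (1 + ξ) / (1 + 3 * ξ) := by
  unfold sS
  rw [eq_div_iff z3, add_mul, add_mul, div_mul_cancel₀ _ z3]
  ring

private theorem alg_D (z3 : 1 + 3 * ξ ≠ 0) :
    sD ξ (-(1 + ξ) / (1 + 3 * ξ)) = -2 * (3 * ξ * (1 + ξ) / (1 + 3 * ξ)) := by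
  unfold sD
  generalize hy : -(1 + ξ) / (1 + 3 * ξ) = y
  have h1 : y * (1 + 3 * ξ) = -(1 + ξ) := by rw [← hy, div_mul_cancel₀ _ z3]
  have h2 : 3 * ξ * (1 + ξ) / (1 + 3 * ξ) = -(3 * ξ * y) := by
    rw [div_eq_iff z3]
    linear_combination 3 * ξ * h1
  rw [h2]
  linear_combination (-1) * h1

private theorem alg_Q (z3 : 1 + 3 * ξ ≠ 0) :
    sQ ξ (-(1 + ξ) / (1 + 3 * ξ)) = 18 * ξ ^ 2 * (1 + ξ) ^ 2 / (1 + 3 * ξ) ^ 2 := by
  unfold sQ
  generalize hy : -(1 + ξ) / (1 + 3 * ξ) = y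
  have h1 : y * (1 + 3 * ξ) = -(1 + ξ) := by rw [← hy, div_mul_cancel₀ _ z3]
  have h2 : (2 * ξ - y - 1) * (1 + 3 * ξ) = 6 * ξ ^ 2 := by linear_combination -h1
  have h3 : (ξ - 2 * y + 1) * (1 + 3 * ξ) = 3 * (1 + ξ) ^ 2 := by linear_combination -2 * h1
  rw [eq_div_iff (pow_ne_zero _ z3)]
  calc (2 * ξ - y - 1) * (ξ - 2 * y + 1) * (1 + 3 * ξ) ^ 2
      = ((2 * ξ - y - 1) * (1 + 3 * ξ)) * ((ξ - 2 * y + 1) * (1 + 3 * ξ)) := by ring
    _ = 18 * ξ ^ 2 * (1 + ξ) ^ 2 := by rw [h2, h3]; ring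

private theorem alg_y (z3 : 1 + 3 * ξ ≠ 0) :
    -(1 + ξ) / (1 + 3 * ξ) + 1 = 2 * ξ / (1 + 3 * ξ) := by
  rw [div_add_one z3]
  congr 1
  ring

end algebra

section SIG

variable {K : Type} [NormedField K] [Algebra GaussianInt K] [NeZero (2 : K)] [DecidableEq K]
  {π : GaussianInt}

private theorem near_giT (h : LocHyp K π) (hodd : ¬ π ∣ 2) (d : Kˣ) {P : E (d : K)}
    (hP : P ≠ 0) (hne : nx P + 1 ≠ 0) (n : ℕ)
    (hx : ‖nx P + 1‖ ≤ ‖algebraMap GaussianInt K π‖ ^ (2 * n + 1)) :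
    P - gi • T d.ne_zero ∈ nb π (d : K) n := by
  have hd := d.ne_zero
  have hr0 := h.norm_pi_pos
  have h2n : ‖(2 : K)‖ = 1 := h.norm_two hodd
  have hlt : ‖nx P + 1‖ < 1 :=
    lt_of_le_of_lt hx (pow_lt_one₀ hr0.le h.norm_pi (by omega))
  have h1 : nx (gi • P) ≠ 1 := by
    rw [nx_gi_smul]
    intro h0
    apply hne
    linear_combination -h0
  obtain ⟨h2, h3⟩ := nx_add_T hd (gi_smul_ne d hP) h1
  have h4 : gi • P + T hd ∈ nb π (d : K) n := by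
    rw [mem_nbh_iff hd]
    right
    have e1 : -nx P + 1 = 2 + -(nx P + 1) := by ring
    have e2 : -nx P - 1 = -(nx P + 1) := by ring
    rw [h3, nx_gi_smul, norm_div, e1, h.norm_sum_eq (by rwa [norm_neg, h2n]), h2n, e2, norm_neg,
      one_div, inv_pow]
    exact inv_anti₀ (norm_pos_iff.2 hne) hx
  have h5 := h.nb_smul d n (-gi) h4
  have e3 : (-gi) • (gi • P + T hd) = P - gi • T hd := by
    have e4 : (-gi) * gi = 1 := by decide
    rw [smul_add, ← mul_smul, e4, one_smul, neg_smul, sub_eq_add_neg]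
  rwa [e3] at h5

/-- the fixed points near `(T₀, i T)` -/
theorem LocHyp.sig_r1_r2 (h : LocHyp K π) (hodd : ¬ π ∣ 2) (d : Kˣ) (c : ℕ) (η : E (d : K))
    (hη : η ∈ nb π (d : K) c) (hη' : η ∉ nb π (d : K) (c + 1)) :
    ∃ η₁ ∈ nb π (d : K) c, ∃ η₂ ∈ nb π (d : K) c,
      (η₁ ∉ nb π (d : K) (c + 1) ∨ η₂ ∉ nb π (d : K) (c + 1)) ∧
      ∃ t' ∈ (FLD K π).NNε lam gi,
        (FLD K π).S t' ⟨d, T₀ d.ne_zero + η₁, gi • T d.ne_zero + η₂⟩ := by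
  have hd := d.ne_zero
  have hchar := h.char0
  have hη0 : η ≠ 0 := by
    rintro rfl
    exact hη' (zero_mem_nbh _ _ _)
  have hinv := h.one_lt_inv
  set r : ℝ := ‖algebraMap GaussianInt K π‖ with hr
  have hr0 : 0 < r := h.norm_pi_pos
  have hr1 : r < 1 := h.norm_pi
  -- the x-coordinate of `η`
  have hx := (mem_nbh_iff hd).1 hη
  have hx : r⁻¹ ^ (2 * c + 1) ≤ ‖nx η‖ := by
    rcases hx with hx | hx
    · exact absurd hx hη0
    · exact hx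
  have hx1 : 1 < ‖nx η‖ := lt_of_lt_of_le (one_lt_pow₀ hinv (by omega)) hx
  have hxne : nx η ≠ 0 := by
    intro h0
    rw [h0, norm_zero] at hx1
    linarith
  set ξ : K := -1 / nx η with hξ
  have hξn : ‖ξ‖ ≤ r ^ (2 * c + 1) := by
    rw [hξ, norm_div, norm_neg, norm_one, one_div, inv_le_comm₀ (by linarith) (by positivity),
      ← inv_pow]
    exact hx
  have hξ1 : ‖ξ‖ < 1 := by
    rw [hξ, norm_div, norm_neg, norm_one, div_lt_one (by linarith)]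
    exact hx1
  have hξ0 : ξ ≠ 0 := by
    rw [hξ]
    exact div_ne_zero (neg_ne_zero.2 one_ne_zero) hxne
  obtain ⟨hP0, hPx⟩ := nx_add_T₀ hd hη0 hxne
  set P : E (d : K) := η + T₀ hd with hP
  rw [← hξ] at hPx
  clear_value ξ
  -- units
  have hn : ∀ z : K, ‖z‖ < 1 → ‖1 + z‖ = 1 := by
    intro z hz
    rw [h.norm_sum_eq (by rwa [norm_one]), norm_one]
  have hle : ∀ (m : K), ‖m‖ ≤ 1 → ‖m * ξ‖ < 1 := by
    intro m hm
    rw [norm_mul]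
    nlinarith [norm_nonneg m, norm_nonneg ξ]
  have h2n : ‖(2 : K)‖ = 1 := h.norm_two hodd
  have h3n : ‖(3 : K)‖ ≤ 1 := h.norm_ofNat_le 3
  have h4n : ‖(4 : K)‖ = 1 := by
    have : (4 : K) = 2 * 2 := by norm_num
    rw [this, norm_mul, h2n, one_mul]
  have n1 : ‖1 + ξ‖ = 1 := hn ξ hξ1
  have n2 : ‖1 + 2 * ξ‖ = 1 := hn _ (hle 2 h2n.le)
  have n3 : ‖1 + 3 * ξ‖ = 1 := hn _ (hle 3 h3n)
  have n4 : ‖1 - ξ‖ = 1 := by
    rw [sub_eq_add_neg]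
    exact hn _ (by rwa [norm_neg])
  have z1 : 1 + ξ ≠ 0 := by
    intro h0; rw [h0, norm_zero] at n1; exact zero_ne_one n1
  have z2 : 1 + 2 * ξ ≠ 0 := by
    intro h0; rw [h0, norm_zero] at n2; exact zero_ne_one n2
  have z3 : 1 + 3 * ξ ≠ 0 := by
    intro h0; rw [h0, norm_zero] at n3; exact zero_ne_one n3
  have z4 : 1 - ξ ≠ 0 := by
    intro h0; rw [h0, norm_zero] at n4; exact zero_ne_one n4
  have hthree : (3 : K) ≠ 0 := by exact_mod_cast (three_ne_zero : (3 : ℕ) ≠ 0)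
  have htwo : (2 : K) ≠ 0 := two_ne_zero
  -- the second coordinate
  obtain ⟨y, hy⟩ : ∃ y : K, y = -(1 + ξ) / (1 + 3 * ξ) := ⟨_, rfl⟩
  -- the unit `u`
  have hu : ‖(1 + 2 * ξ) / ((1 - ξ) * (1 + 3 * ξ) ^ 3) - 1‖ < ‖(4 : K)‖ := by
    rw [alg_unit z3 z4, norm_div, norm_mul (1 - ξ), norm_pow, n3, n4, h4n, one_pow, one_mul, div_one]
    apply hle
    have a1 : ‖(-6 : K)‖ ≤ 1 := by
      rw [norm_neg]; exact h.norm_ofNat_le 6
    have a2 : ‖18 * ξ‖ ≤ 1 := (hle 18 (h.norm_ofNat_le 18)).le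
    have a3 : ‖27 * ξ ^ 3‖ ≤ 1 := by
      rw [norm_mul, norm_pow]
      have : ‖(27 : K)‖ ≤ 1 := h.norm_ofNat_le 27
      calc ‖(27 : K)‖ * ‖ξ‖ ^ 3 ≤ 1 * 1 ^ 3 := by gcongr
        _ = 1 := by norm_num
    exact (h.ultra _ _).trans (max_le ((h.norm_sub_le _ _).trans (max_le a1 a2)) a3)
  obtain ⟨w, hw, -⟩ := h.sqrt hu
  have hfP : ff (nx P) ≠ 0 := by
    rw [hPx]
    have : ff ξ = -ξ * ((1 - ξ) * (1 + ξ)) := by unfold ff; ring
    rw [this]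
    exact mul_ne_zero (neg_ne_zero.2 hξ0) (mul_ne_zero z4 z1)
  have hfy : ff y = (2 * II K * w) ^ 2 * ff ξ := by
    have hI := II_sq K
    have e1 : (2 * II K * w) ^ 2 = -4 * w ^ 2 := by linear_combination 4 * w ^ 2 * hI
    rw [e1, hw]
    unfold ff
    rw [hy]
    field_simp
    ring
  have hfy0 : ff y ≠ 0 := by
    have e1 : ff y = 4 * ξ * (1 + ξ) * (1 + 2 * ξ) / (1 + 3 * ξ) ^ 3 := by
      unfold ff
      rw [hy]
      field_simp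
      ring
    rw [e1]
    exact div_ne_zero (mul_ne_zero (mul_ne_zero (mul_ne_zero four_ne' hξ0) z1) z2)
      (pow_ne_zero _ z3)
  obtain ⟨Q, hQ0, hQx, -⟩ := exists_pt (d := (d : K)) hd (x := y)
    (s := 2 * II K * w * (yc P / d)) (by
      rw [mul_pow, sq_ff_nx hd, hPx, hfy]
      ring)
  have eS : sS (nx P) (nx Q) = 3 * ξ * (1 + ξ) / (1 + 3 * ξ) := by
    rw [hPx, hQx, hy]
    exact alg_S z3
  have eD : sD (nx P) (nx Q) = -2 * sS (nx P) (nx Q) := by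
    rw [eS, hPx, hQx, hy]
    exact alg_D z3
  have eQ : sQ (nx P) (nx Q) = 18 * ξ ^ 2 * (1 + ξ) ^ 2 / (1 + 3 * ξ) ^ 2 := by
    rw [hPx, hQx, hy]
    exact alg_Q z3
  have hS : sS (nx P) (nx Q) ≠ 0 := by
    rw [eS]
    exact div_ne_zero (mul_ne_zero (mul_ne_zero hthree hξ0) z1) z3
  have hD : sD (nx P) (nx Q) ≠ 0 := by
    rw [eD]
    exact mul_ne_zero (neg_ne_zero.2 htwo) hS
  have hQq : sQ (nx P) (nx Q) ≠ 0 := by
    rw [eQ]
    have h18 : (18 : K) ≠ 0 := by exact_mod_cast (by norm_num : (18 : ℕ) ≠ 0)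
    exact div_ne_zero (mul_ne_zero (mul_ne_zero h18 (pow_ne_zero _ hξ0)) (pow_ne_zero _ z1))
      (pow_ne_zero _ z3)
  have erho : rho (nx P) (nx Q) = 1 := by
    unfold rho
    rw [← eD, div_self hD]
  have hsx : nx P = sx (nx P) (nx Q) := by
    unfold sx; rw [erho]; ring
  have hsy : nx Q = sy (nx P) (nx Q) := by
    unfold sy; rw [erho]; ring
  have hnear : Q - gi • T hd ∈ nb π (d : K) c := by
    have e1 : y + 1 = 2 * ξ / (1 + 3 * ξ) := by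
      rw [hy]
      exact alg_y z3
    apply near_giT h hodd d hQ0
    · rw [hQx, e1]
      exact div_ne_zero (mul_ne_zero htwo hξ0) z3
    · rw [hQx, e1, norm_div, norm_mul, h2n, n3, one_mul, div_one]
      exact hξn
  have hsub : nb π (d : K) c ⊆ nb π (d : K) 0 := nbh_anti hinv.le _ (Nat.zero_le c)
  have e2 : T₀ hd + η = P := by rw [hP, add_comm]
  have e3 : gi • T hd + (Q - gi • T hd) = Q := by abel
  refine ⟨η, hη, Q - gi • T hd, hnear, Or.inl hη', ?_⟩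
  rw [e2, e3]
  rcases SRel.intro (d := d) (d' := d) hfP (by rw [hQx]; exact hfy0) hP0 hQ0 hD hS hQq hsx hsy with hh | hh
  · refine ⟨⟨d, P, Q⟩, ⟨η, hsub hη, Q - gi • T hd, hsub hnear, ?_⟩, hh.symm⟩
    change (⟨d, P, Q⟩ : Σ d : Kˣ, E (d : K) × E (d : K)) =
      ⟨d, lam • T hd + η, gi • T hd + (Q - gi • T hd)⟩
    rw [lam_smul_T, e2, e3]
  · have e4 : gi • T hd + -(Q - gi • T hd) = -Q := by
      have e5 : gi • T hd + gi • T hd = 0 := by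
        rw [← two_smul GaussianInt, ← mul_smul, mul_comm, mul_smul, two_smul_T, smul_zero]
      calc gi • T hd + -(Q - gi • T hd) = (gi • T hd + gi • T hd) - Q := by abel
        _ = -Q := by rw [e5, zero_sub]
    refine ⟨⟨d, P, -Q⟩, ⟨η, hsub hη, -(Q - gi • T hd), neg_mem_nbh (hsub hnear), ?_⟩, hh.symm⟩
    change (⟨d, P, -Q⟩ : Σ d : Kˣ, E (d : K) × E (d : K)) =
      ⟨d, lam • T hd + η, gi • T hd + -(Q - gi • T hd)⟩
    rw [lam_smul_T, e2, e4]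

end SIG

end GWA
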